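import Pool.Agent.U316.Th.Cert.P0
import Pool.Agent.U316.Th.Cert.P1
import Pool.Agent.U316.Th.Cert.P2
import Pool.Agent.U316.Th.Cert.P3
import Pool.Agent.U316.Th.Cert.P4
import Pool.Agent.U316.Th.Cert.P5
import Pool.Agent.U316.Th.Cert.P6
import Pool.Agent.U316.Th.Cert.P7
import Pool.Agent.U316.Th.Cert.P8
import Pool.Agent.U316.Th.Cert.P9
import Pool.Agent.U316.Th.Cert.P10
import Pool.Agent.U316.Th.Cert.P11
import Pool.Agent.U316.Th.Cert.P12
import Pool.Agent.U316.Th.Cert.P13
import Pool.Agent.U316.Th.Cert.P14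
import Pool.Agent.U316.Th.Cert.P15

/-!
# Bisections
-/

set_option autoImplicit false
set_option maxRecDepth 100000

namespace Pool.Agent.U316.Th

theorem tp0 : Good (Q 0) [v0, v8, v2, v3, v1, v6] :=
  split_of 0 3 v7 1266396334 (by decide +kernel) ch2 ch3 rfl rfl

theorem tp1 : Good (Q 0) [v0, v8, v2, v3, v1, v5] :=
  split_of 1 5 v6 1256264730 (by decide +kernel) ch1 tp0 rfl rfl

theorem tp2 : Good (Q 0) [v0, v8, v2, v3, v4, v5] :=
  split_of 1 4 v1 1280313892 (by decide +kernel) ch0 tp1 rfl rfl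

theorem tp3 : Good (Q 0) [v9, v8, v2, v3, v1, v7] :=
  split_of 0 3 v10 1269404413 (by decide +kernel) ch6 ch7 rfl rfl

theorem tp4 : Good (Q 0) [v9, v8, v2, v3, v1, v0] :=
  split_of 3 5 v7 1266396334 (by decide +kernel) ch5 tp3 rfl rfl

theorem tp5 : Good (Q 0) [v9, v8, v2, v3, v4, v0] :=
  split_of 1 4 v1 1280313892 (by decide +kernel) ch4 tp4 rfl rfl

theorem tp6 : Good (Q 0) [v11, v8, v2, v3, v9, v7] :=
  split_of 3 4 v10 1269404413 (by decide +kernel) ch9 ch10 rfl rfl

theorem tp7 : Good (Q 0) [v11, v8, v2, v3, v9, v0] :=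
  split_of 3 5 v7 1266396334 (by decide +kernel) ch8 tp6 rfl rfl

theorem tp8 : Good (Q 0) [v22, v18, v2, v21, v19, v20] :=
  split_of 1 4 v23 1342973725 (by decide +kernel) ch18 ch19 rfl rfl

theorem tp9 : Good (Q 0) [v16, v18, v2, v21, v19, v20] :=
  split_of 0 2 v22 1347302695 (by decide +kernel) tp8 ch20 rfl rfl

theorem tp10 : Good (Q 0) [v16, v18, v2, v15, v19, v20] :=
  split_of 2 3 v21 1345746917 (by decide +kernel) ch17 tp9 rfl rfl

theorem tp11 : Good (Q 0) [v16, v18, v2, v15, v19, v17] :=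
  split_of 2 5 v20 1342484791 (by decide +kernel) ch16 tp10 rfl rfl

theorem tp12 : Good (Q 0) [v16, v18, v2, v15, v14, v17] :=
  split_of 2 4 v19 1343852908 (by decide +kernel) ch15 tp11 rfl rfl

theorem tp13 : Good (Q 0) [v16, v8, v2, v15, v14, v17] :=
  split_of 1 2 v18 1333169107 (by decide +kernel) tp12 ch21 rfl rfl

theorem tp14 : Good (Q 0) [v16, v8, v2, v15, v14, v13] :=
  split_of 1 5 v17 1311740689 (by decide +kernel) ch14 tp13 rfl rfl

theorem tp15 : Good (Q 0) [v12, v8, v2, v15, v14, v13] :=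
  split_of 0 2 v16 1329531520 (by decide +kernel) tp14 ch22 rfl rfl

theorem tp16 : Good (Q 0) [v12, v8, v2, v11, v14, v13] :=
  split_of 2 3 v15 1324037525 (by decide +kernel) ch13 tp15 rfl rfl

theorem tp17 : Good (Q 0) [v12, v8, v2, v11, v9, v13] :=
  split_of 2 4 v14 1315710025 (by decide +kernel) ch12 tp16 rfl rfl

theorem tp18 : Good (Q 0) [v12, v8, v2, v11, v9, v0] :=
  split_of 2 5 v13 1309159440 (by decide +kernel) ch11 tp17 rfl rfl

theorem tp19 : Good (Q 0) [v24, v8, v2, v11, v9, v0] :=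
  split_of 0 2 v12 1245967015 (by decide +kernel) tp18 ch23 rfl rfl

theorem tp20 : Good (Q 0) [v24, v8, v2, v3, v9, v0] :=
  split_of 0 3 v11 1229127558 (by decide +kernel) tp7 tp19 rfl rfl

theorem tp21 : Good (Q 0) [v24, v8, v2, v3, v4, v0] :=
  split_of 0 4 v9 1184875434 (by decide +kernel) tp5 tp20 rfl rfl

theorem tp22 : Good (Q 0) [v24, v8, v2, v3, v4, v5] :=
  split_of 0 5 v0 1156653316 (by decide +kernel) tp2 tp21 rfl rfl

theorem tp23 : Good (Q 0) [v14, v8, v2, v28, v29, v27] :=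
  split_of 1 5 v30 1311272127 (by decide +kernel) ch29 ch30 rfl rfl

theorem tp24 : Good (Q 0) [v14, v8, v2, v28, v1, v27] :=
  split_of 1 4 v29 1297535559 (by decide +kernel) ch28 tp23 rfl rfl

theorem tp25 : Good (Q 0) [v9, v8, v2, v28, v1, v27] :=
  split_of 0 2 v14 1315710025 (by decide +kernel) tp24 ch31 rfl rfl

theorem tp26 : Good (Q 0) [v9, v8, v2, v3, v1, v27] :=
  split_of 1 3 v28 1307275754 (by decide +kernel) ch27 tp25 rfl rfl

theorem tp27 : Good (Q 0) [v9, v8, v2, v3, v1, v25] :=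
  split_of 2 5 v27 1305386625 (by decide +kernel) ch26 tp26 rfl rfl

theorem tp28 : Good (Q 0) [v9, v8, v2, v3, v4, v25] :=
  split_of 1 4 v1 1280313892 (by decide +kernel) ch25 tp27 rfl rfl

theorem tp29 : Good (Q 0) [v11, v8, v2, v3, v9, v31] :=
  split_of 3 4 v10 1269404413 (by decide +kernel) ch33 ch34 rfl rfl

theorem tp30 : Good (Q 0) [v11, v8, v2, v3, v9, v25] :=
  split_of 3 5 v31 1254218692 (by decide +kernel) ch32 tp29 rfl rfl

theorem tp31 : Good (Q 0) [v16, v8, v2, v15, v14, v30] :=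
  split_of 1 2 v18 1333169107 (by decide +kernel) ch39 ch40 rfl rfl

theorem tp32 : Good (Q 0) [v16, v8, v2, v15, v14, v27] :=
  split_of 1 5 v30 1311272127 (by decide +kernel) ch38 tp31 rfl rfl

theorem tp33 : Good (Q 0) [v12, v8, v2, v15, v14, v27] :=
  split_of 0 2 v16 1329531520 (by decide +kernel) tp32 ch41 rfl rfl

theorem tp34 : Good (Q 0) [v12, v8, v2, v11, v14, v27] :=
  split_of 2 3 v15 1324037525 (by decide +kernel) ch37 tp33 rfl rfl

theorem tp35 : Good (Q 0) [v12, v8, v2, v11, v9, v27] :=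
  split_of 2 4 v14 1315710025 (by decide +kernel) ch36 tp34 rfl rfl

theorem tp36 : Good (Q 0) [v12, v8, v2, v11, v9, v25] :=
  split_of 2 5 v27 1305386625 (by decide +kernel) ch35 tp35 rfl rfl

theorem tp37 : Good (Q 0) [v24, v8, v2, v11, v9, v25] :=
  split_of 0 2 v12 1245967015 (by decide +kernel) tp36 ch42 rfl rfl

theorem tp38 : Good (Q 0) [v24, v8, v2, v3, v9, v25] :=
  split_of 0 3 v11 1229127558 (by decide +kernel) tp30 tp37 rfl rfl

theorem tp39 : Good (Q 0) [v24, v8, v2, v3, v4, v25] :=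
  split_of 0 4 v9 1184875434 (by decide +kernel) tp28 tp38 rfl rfl

theorem tp40 : Good (Q 0) [v24, v8, v2, v3, v4, v26] :=
  split_of 0 5 v25 1116736499 (by decide +kernel) ch24 tp39 rfl rfl

theorem tp41 : Good (Q 0) [v0, v8, v2, v3, v32, v6] :=
  split_of 0 3 v7 1266396334 (by decide +kernel) ch45 ch46 rfl rfl

theorem tp42 : Good (Q 0) [v0, v8, v2, v3, v32, v5] :=
  split_of 1 5 v6 1256264730 (by decide +kernel) ch44 tp41 rfl rfl

theorem tp43 : Good (Q 0) [v0, v8, v2, v3, v33, v5] :=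
  split_of 1 4 v32 1268403305 (by decide +kernel) ch43 tp42 rfl rfl

theorem tp44 : Good (Q 0) [v34, v8, v2, v7, v32, v0] :=
  split_of 0 2 v35 1315710025 (by decide +kernel) ch48 ch49 rfl rfl

theorem tp45 : Good (Q 0) [v34, v8, v2, v3, v32, v7] :=
  split_of 0 3 v36 1269404413 (by decide +kernel) ch50 ch51 rfl rfl

theorem tp46 : Good (Q 0) [v34, v8, v2, v3, v32, v0] :=
  split_of 3 5 v7 1266396334 (by decide +kernel) tp44 tp45 rfl rfl

theorem tp47 : Good (Q 0) [v34, v8, v2, v3, v33, v0] :=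
  split_of 1 4 v32 1268403305 (by decide +kernel) ch47 tp46 rfl rfl

theorem tp48 : Good (Q 0) [v11, v8, v2, v3, v34, v7] :=
  split_of 3 4 v36 1269404413 (by decide +kernel) ch53 ch54 rfl rfl

theorem tp49 : Good (Q 0) [v11, v8, v2, v3, v34, v0] :=
  split_of 3 5 v7 1266396334 (by decide +kernel) ch52 tp48 rfl rfl

theorem tp50 : Good (Q 0) [v16, v18, v2, v15, v37, v17] :=
  split_of 2 5 v20 1342484791 (by decide +kernel) ch60 ch61 rfl rfl

theorem tp51 : Good (Q 0) [v16, v18, v2, v15, v35, v17] :=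
  split_of 2 4 v37 1343852908 (by decide +kernel) ch59 tp50 rfl rfl

theorem tp52 : Good (Q 0) [v16, v8, v2, v15, v35, v17] :=
  split_of 1 2 v18 1333169107 (by decide +kernel) tp51 ch62 rfl rfl

theorem tp53 : Good (Q 0) [v16, v8, v2, v15, v35, v13] :=
  split_of 1 5 v17 1311740689 (by decide +kernel) ch58 tp52 rfl rfl

theorem tp54 : Good (Q 0) [v12, v8, v2, v15, v35, v13] :=
  split_of 0 2 v16 1329531520 (by decide +kernel) tp53 ch63 rfl rfl

theorem tp55 : Good (Q 0) [v12, v8, v2, v11, v35, v13] :=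
  split_of 2 3 v15 1324037525 (by decide +kernel) ch57 tp54 rfl rfl

theorem tp56 : Good (Q 0) [v12, v8, v2, v11, v34, v13] :=
  split_of 2 4 v35 1315710025 (by decide +kernel) ch56 tp55 rfl rfl

theorem tp57 : Good (Q 0) [v12, v8, v2, v11, v34, v0] :=
  split_of 2 5 v13 1309159440 (by decide +kernel) ch55 tp56 rfl rfl

theorem tp58 : Good (Q 0) [v24, v8, v2, v11, v34, v0] :=
  split_of 0 2 v12 1245967015 (by decide +kernel) tp57 ch64 rfl rfl

theorem tp59 : Good (Q 0) [v24, v8, v2, v3, v34, v0] :=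
  split_of 0 3 v11 1229127558 (by decide +kernel) tp49 tp58 rfl rfl

theorem tp60 : Good (Q 0) [v24, v8, v2, v3, v33, v0] :=
  split_of 0 4 v34 1184875434 (by decide +kernel) tp47 tp59 rfl rfl

theorem tp61 : Good (Q 0) [v24, v8, v2, v3, v33, v5] :=
  split_of 0 5 v0 1156653316 (by decide +kernel) tp43 tp60 rfl rfl

theorem tp62 : Good (Q 0) [v41, v8, v2, v28, v42, v30] :=
  split_of 0 1 v43 1313261210 (by decide +kernel) ch71 ch72 rfl rfl

theorem tp63 : Good (Q 0) [v41, v8, v2, v28, v42, v27] :=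
  split_of 1 5 v30 1311272127 (by decide +kernel) ch70 tp62 rfl rfl

theorem tp64 : Good (Q 0) [v41, v8, v2, v28, v40, v27] :=
  split_of 1 4 v42 1293212810 (by decide +kernel) ch69 tp63 rfl rfl

theorem tp65 : Good (Q 0) [v39, v8, v2, v28, v40, v27] :=
  split_of 0 2 v41 1315710025 (by decide +kernel) tp64 ch73 rfl rfl

theorem tp66 : Good (Q 0) [v39, v8, v2, v3, v40, v27] :=
  split_of 1 3 v28 1307275754 (by decide +kernel) ch68 tp65 rfl rfl

theorem tp67 : Good (Q 0) [v39, v8, v2, v3, v40, v25] :=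
  split_of 2 5 v27 1305386625 (by decide +kernel) ch67 tp66 rfl rfl

theorem tp68 : Good (Q 0) [v39, v8, v2, v3, v38, v25] :=
  split_of 1 4 v40 1268403305 (by decide +kernel) ch66 tp67 rfl rfl

theorem tp69 : Good (Q 0) [v11, v8, v2, v3, v39, v31] :=
  split_of 3 4 v44 1269404413 (by decide +kernel) ch75 ch76 rfl rfl

theorem tp70 : Good (Q 0) [v11, v8, v2, v3, v39, v25] :=
  split_of 3 5 v31 1254218692 (by decide +kernel) ch74 tp69 rfl rfl

theorem tp71 : Good (Q 0) [v16, v18, v2, v15, v45, v46] :=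
  split_of 2 3 v21 1345746917 (by decide +kernel) ch83 ch84 rfl rfl

theorem tp72 : Good (Q 0) [v16, v18, v2, v15, v45, v30] :=
  split_of 2 5 v46 1342428891 (by decide +kernel) ch82 tp71 rfl rfl

theorem tp73 : Good (Q 0) [v16, v18, v2, v15, v41, v30] :=
  split_of 2 4 v45 1343852908 (by decide +kernel) ch81 tp72 rfl rfl

theorem tp74 : Good (Q 0) [v16, v8, v2, v15, v41, v30] :=
  split_of 1 2 v18 1333169107 (by decide +kernel) tp73 ch85 rfl rfl

theorem tp75 : Good (Q 0) [v16, v8, v2, v15, v41, v27] :=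
  split_of 1 5 v30 1311272127 (by decide +kernel) ch80 tp74 rfl rfl

theorem tp76 : Good (Q 0) [v12, v8, v2, v15, v41, v27] :=
  split_of 0 2 v16 1329531520 (by decide +kernel) tp75 ch86 rfl rfl

theorem tp77 : Good (Q 0) [v12, v8, v2, v11, v41, v27] :=
  split_of 2 3 v15 1324037525 (by decide +kernel) ch79 tp76 rfl rfl

theorem tp78 : Good (Q 0) [v12, v8, v2, v11, v39, v27] :=
  split_of 2 4 v41 1315710025 (by decide +kernel) ch78 tp77 rfl rfl

theorem tp79 : Good (Q 0) [v12, v8, v2, v11, v39, v25] :=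
  split_of 2 5 v27 1305386625 (by decide +kernel) ch77 tp78 rfl rfl

theorem tp80 : Good (Q 0) [v24, v8, v2, v11, v39, v25] :=
  split_of 0 2 v12 1245967015 (by decide +kernel) tp79 ch87 rfl rfl

theorem tp81 : Good (Q 0) [v24, v8, v2, v3, v39, v25] :=
  split_of 0 3 v11 1229127558 (by decide +kernel) tp70 tp80 rfl rfl

theorem tp82 : Good (Q 0) [v24, v8, v2, v3, v38, v25] :=
  split_of 0 4 v39 1184875434 (by decide +kernel) tp68 tp81 rfl rfl

theorem tp83 : Good (Q 0) [v24, v8, v2, v3, v38, v26] :=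
  split_of 0 5 v25 1116736499 (by decide +kernel) ch65 tp82 rfl rfl

theorem tp84 : Good (Q 0) [v0, v8, v2, v47, v1, v6] :=
  split_of 0 3 v48 1241799870 (by decide +kernel) ch90 ch91 rfl rfl

theorem tp85 : Good (Q 0) [v0, v8, v2, v47, v1, v5] :=
  split_of 1 5 v6 1256264730 (by decide +kernel) ch89 tp84 rfl rfl

theorem tp86 : Good (Q 0) [v0, v8, v2, v47, v4, v5] :=
  split_of 1 4 v1 1280313892 (by decide +kernel) ch88 tp85 rfl rfl

theorem tp87 : Good (Q 0) [v9, v8, v2, v47, v1, v0] :=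
  split_of 3 5 v48 1241799870 (by decide +kernel) ch93 ch94 rfl rfl

theorem tp88 : Good (Q 0) [v9, v8, v2, v47, v4, v0] :=
  split_of 1 4 v1 1280313892 (by decide +kernel) ch92 tp87 rfl rfl

theorem tp89 : Good (Q 0) [v51, v8, v2, v50, v53, v52] :=
  split_of 0 1 v54 1315360752 (by decide +kernel) ch100 ch101 rfl rfl

theorem tp90 : Good (Q 0) [v51, v8, v2, v50, v14, v52] :=
  split_of 1 4 v53 1313961803 (by decide +kernel) ch99 tp89 rfl rfl

theorem tp91 : Good (Q 0) [v51, v8, v2, v50, v14, v48] :=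
  split_of 1 5 v52 1298014089 (by decide +kernel) ch98 tp90 rfl rfl

theorem tp92 : Good (Q 0) [v49, v8, v2, v50, v14, v48] :=
  split_of 0 2 v51 1321273347 (by decide +kernel) tp91 ch102 rfl rfl

theorem tp93 : Good (Q 0) [v49, v8, v2, v50, v9, v48] :=
  split_of 2 4 v14 1315710025 (by decide +kernel) ch97 tp92 rfl rfl

theorem tp94 : Good (Q 0) [v49, v8, v2, v47, v9, v48] :=
  split_of 1 3 v50 1307275754 (by decide +kernel) ch96 tp93 rfl rfl

theorem tp95 : Good (Q 0) [v49, v8, v2, v47, v9, v0] :=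
  split_of 3 5 v48 1241799870 (by decide +kernel) ch95 tp94 rfl rfl

theorem tp96 : Good (Q 0) [v16, v8, v2, v51, v14, v17] :=
  split_of 1 2 v18 1333169107 (by decide +kernel) ch107 ch108 rfl rfl

theorem tp97 : Good (Q 0) [v16, v8, v2, v51, v14, v13] :=
  split_of 1 5 v17 1311740689 (by decide +kernel) ch106 tp96 rfl rfl

theorem tp98 : Good (Q 0) [v12, v8, v2, v51, v14, v13] :=
  split_of 0 2 v16 1329531520 (by decide +kernel) tp97 ch109 rfl rfl

theorem tp99 : Good (Q 0) [v12, v8, v2, v49, v14, v13] :=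
  split_of 2 3 v51 1321273347 (by decide +kernel) ch105 tp98 rfl rfl

theorem tp100 : Good (Q 0) [v12, v8, v2, v49, v9, v13] :=
  split_of 2 4 v14 1315710025 (by decide +kernel) ch104 tp99 rfl rfl

theorem tp101 : Good (Q 0) [v12, v8, v2, v49, v9, v0] :=
  split_of 2 5 v13 1309159440 (by decide +kernel) ch103 tp100 rfl rfl

theorem tp102 : Good (Q 0) [v24, v8, v2, v49, v9, v0] :=
  split_of 0 2 v12 1245967015 (by decide +kernel) tp101 ch110 rfl rfl

theorem tp103 : Good (Q 0) [v24, v8, v2, v47, v9, v0] :=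
  split_of 0 3 v49 1202967926 (by decide +kernel) tp95 tp102 rfl rfl

theorem tp104 : Good (Q 0) [v24, v8, v2, v47, v4, v0] :=
  split_of 0 4 v9 1184875434 (by decide +kernel) tp88 tp103 rfl rfl

theorem tp105 : Good (Q 0) [v24, v8, v2, v47, v4, v5] :=
  split_of 0 5 v0 1156653316 (by decide +kernel) tp86 tp104 rfl rfl

theorem tp106 : Good (Q 0) [v14, v8, v2, v50, v1, v27] :=
  split_of 1 4 v29 1297535559 (by decide +kernel) ch115 ch116 rfl rfl

theorem tp107 : Good (Q 0) [v9, v8, v2, v50, v1, v27] :=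
  split_of 0 2 v14 1315710025 (by decide +kernel) tp106 ch117 rfl rfl

theorem tp108 : Good (Q 0) [v9, v8, v2, v47, v1, v27] :=
  split_of 1 3 v50 1307275754 (by decide +kernel) ch114 tp107 rfl rfl

theorem tp109 : Good (Q 0) [v9, v8, v2, v47, v1, v25] :=
  split_of 2 5 v27 1305386625 (by decide +kernel) ch113 tp108 rfl rfl

theorem tp110 : Good (Q 0) [v9, v8, v2, v47, v4, v25] :=
  split_of 1 4 v1 1280313892 (by decide +kernel) ch112 tp109 rfl rfl

theorem tp111 : Good (Q 0) [v54, v8, v2, v50, v53, v30] :=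
  split_of 1 2 v18 1333169107 (by decide +kernel) ch123 ch124 rfl rfl

theorem tp112 : Good (Q 0) [v51, v8, v2, v50, v53, v30] :=
  split_of 0 1 v54 1315360752 (by decide +kernel) tp111 ch125 rfl rfl

theorem tp113 : Good (Q 0) [v51, v8, v2, v50, v14, v30] :=
  split_of 1 4 v53 1313961803 (by decide +kernel) ch122 tp112 rfl rfl

theorem tp114 : Good (Q 0) [v51, v8, v2, v50, v14, v27] :=
  split_of 1 5 v30 1311272127 (by decide +kernel) ch121 tp113 rfl rfl

theorem tp115 : Good (Q 0) [v49, v8, v2, v50, v14, v27] :=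
  split_of 0 2 v51 1321273347 (by decide +kernel) tp114 ch126 rfl rfl

theorem tp116 : Good (Q 0) [v49, v8, v2, v50, v9, v27] :=
  split_of 2 4 v14 1315710025 (by decide +kernel) ch120 tp115 rfl rfl

theorem tp117 : Good (Q 0) [v49, v8, v2, v47, v9, v27] :=
  split_of 1 3 v50 1307275754 (by decide +kernel) ch119 tp116 rfl rfl

theorem tp118 : Good (Q 0) [v49, v8, v2, v47, v9, v25] :=
  split_of 2 5 v27 1305386625 (by decide +kernel) ch118 tp117 rfl rfl

theorem tp119 : Good (Q 0) [v16, v8, v2, v51, v14, v30] :=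
  split_of 1 4 v53 1313961803 (by decide +kernel) ch131 ch132 rfl rfl

theorem tp120 : Good (Q 0) [v16, v8, v2, v51, v14, v27] :=
  split_of 1 5 v30 1311272127 (by decide +kernel) ch130 tp119 rfl rfl

theorem tp121 : Good (Q 0) [v12, v8, v2, v51, v14, v27] :=
  split_of 0 2 v16 1329531520 (by decide +kernel) tp120 ch133 rfl rfl

theorem tp122 : Good (Q 0) [v12, v8, v2, v49, v14, v27] :=
  split_of 2 3 v51 1321273347 (by decide +kernel) ch129 tp121 rfl rfl

theorem tp123 : Good (Q 0) [v12, v8, v2, v49, v9, v27] :=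
  split_of 2 4 v14 1315710025 (by decide +kernel) ch128 tp122 rfl rfl

theorem tp124 : Good (Q 0) [v12, v8, v2, v49, v9, v25] :=
  split_of 2 5 v27 1305386625 (by decide +kernel) ch127 tp123 rfl rfl

theorem tp125 : Good (Q 0) [v24, v8, v2, v49, v9, v25] :=
  split_of 0 2 v12 1245967015 (by decide +kernel) tp124 ch134 rfl rfl

theorem tp126 : Good (Q 0) [v24, v8, v2, v47, v9, v25] :=
  split_of 0 3 v49 1202967926 (by decide +kernel) tp118 tp125 rfl rfl

theorem tp127 : Good (Q 0) [v24, v8, v2, v47, v4, v25] :=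
  split_of 0 4 v9 1184875434 (by decide +kernel) tp110 tp126 rfl rfl

theorem tp128 : Good (Q 0) [v24, v8, v2, v47, v4, v26] :=
  split_of 0 5 v25 1116736499 (by decide +kernel) ch111 tp127 rfl rfl

theorem tp129 : Good (Q 0) [v0, v8, v2, v47, v55, v6] :=
  split_of 0 3 v48 1241799870 (by decide +kernel) ch137 ch138 rfl rfl

theorem tp130 : Good (Q 0) [v0, v8, v2, v47, v55, v5] :=
  split_of 1 5 v6 1256264730 (by decide +kernel) ch136 tp129 rfl rfl

theorem tp131 : Good (Q 0) [v0, v8, v2, v47, v56, v5] :=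
  split_of 1 4 v55 1268403305 (by decide +kernel) ch135 tp130 rfl rfl

theorem tp132 : Good (Q 0) [v57, v8, v2, v47, v55, v0] :=
  split_of 3 5 v48 1241799870 (by decide +kernel) ch140 ch141 rfl rfl

theorem tp133 : Good (Q 0) [v57, v8, v2, v47, v56, v0] :=
  split_of 1 4 v55 1268403305 (by decide +kernel) ch139 tp132 rfl rfl

theorem tp134 : Good (Q 0) [v51, v8, v2, v50, v59, v52] :=
  split_of 0 1 v54 1315360752 (by decide +kernel) ch147 ch148 rfl rfl

theorem tp135 : Good (Q 0) [v51, v8, v2, v50, v58, v52] :=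
  split_of 1 4 v59 1312910633 (by decide +kernel) ch146 tp134 rfl rfl

theorem tp136 : Good (Q 0) [v51, v8, v2, v50, v58, v48] :=
  split_of 1 5 v52 1298014089 (by decide +kernel) ch145 tp135 rfl rfl

theorem tp137 : Good (Q 0) [v49, v8, v2, v50, v58, v48] :=
  split_of 0 2 v51 1321273347 (by decide +kernel) tp136 ch149 rfl rfl

theorem tp138 : Good (Q 0) [v49, v8, v2, v50, v57, v48] :=
  split_of 2 4 v58 1312910633 (by decide +kernel) ch144 tp137 rfl rfl

theorem tp139 : Good (Q 0) [v49, v8, v2, v47, v57, v48] :=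
  split_of 1 3 v50 1307275754 (by decide +kernel) ch143 tp138 rfl rfl

theorem tp140 : Good (Q 0) [v49, v8, v2, v47, v57, v0] :=
  split_of 3 5 v48 1241799870 (by decide +kernel) ch142 tp139 rfl rfl

theorem tp141 : Good (Q 0) [v16, v8, v2, v51, v58, v17] :=
  split_of 1 4 v59 1312910633 (by decide +kernel) ch154 ch155 rfl rfl

theorem tp142 : Good (Q 0) [v16, v8, v2, v51, v58, v13] :=
  split_of 1 5 v17 1311740689 (by decide +kernel) ch153 tp141 rfl rfl

theorem tp143 : Good (Q 0) [v12, v8, v2, v51, v58, v13] :=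
  split_of 0 2 v16 1329531520 (by decide +kernel) tp142 ch156 rfl rfl

theorem tp144 : Good (Q 0) [v12, v8, v2, v49, v58, v13] :=
  split_of 2 3 v51 1321273347 (by decide +kernel) ch152 tp143 rfl rfl

theorem tp145 : Good (Q 0) [v12, v8, v2, v49, v58, v0] :=
  split_of 2 5 v13 1309159440 (by decide +kernel) ch151 tp144 rfl rfl

theorem tp146 : Good (Q 0) [v12, v8, v2, v49, v57, v0] :=
  split_of 2 4 v58 1312910633 (by decide +kernel) ch150 tp145 rfl rfl

theorem tp147 : Good (Q 0) [v24, v8, v2, v49, v57, v0] :=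
  split_of 0 2 v12 1245967015 (by decide +kernel) tp146 ch157 rfl rfl

theorem tp148 : Good (Q 0) [v24, v8, v2, v47, v57, v0] :=
  split_of 0 3 v49 1202967926 (by decide +kernel) tp140 tp147 rfl rfl

theorem tp149 : Good (Q 0) [v24, v8, v2, v47, v56, v0] :=
  split_of 0 4 v57 1156653316 (by decide +kernel) tp133 tp148 rfl rfl

theorem tp150 : Good (Q 0) [v24, v8, v2, v47, v56, v5] :=
  split_of 0 5 v0 1156653316 (by decide +kernel) tp131 tp149 rfl rfl

theorem tp151 : Good (Q 0) [v63, v8, v2, v50, v64, v30] :=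
  split_of 0 1 v65 1312910633 (by decide +kernel) ch164 ch165 rfl rfl

theorem tp152 : Good (Q 0) [v63, v8, v2, v50, v64, v27] :=
  split_of 1 5 v30 1311272127 (by decide +kernel) ch163 tp151 rfl rfl

theorem tp153 : Good (Q 0) [v63, v8, v2, v50, v62, v27] :=
  split_of 1 4 v64 1293212810 (by decide +kernel) ch162 tp152 rfl rfl

theorem tp154 : Good (Q 0) [v61, v8, v2, v50, v62, v27] :=
  split_of 0 2 v63 1312910633 (by decide +kernel) tp153 ch166 rfl rfl

theorem tp155 : Good (Q 0) [v61, v8, v2, v47, v62, v27] :=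
  split_of 1 3 v50 1307275754 (by decide +kernel) ch161 tp154 rfl rfl

theorem tp156 : Good (Q 0) [v61, v8, v2, v47, v62, v25] :=
  split_of 2 5 v27 1305386625 (by decide +kernel) ch160 tp155 rfl rfl

theorem tp157 : Good (Q 0) [v61, v8, v2, v47, v60, v25] :=
  split_of 1 4 v62 1268403305 (by decide +kernel) ch159 tp156 rfl rfl

theorem tp158 : Good (Q 0) [v54, v8, v2, v50, v65, v30] :=
  split_of 1 2 v18 1333169107 (by decide +kernel) ch172 ch173 rfl rfl

theorem tp159 : Good (Q 0) [v51, v8, v2, v50, v65, v30] :=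
  split_of 0 1 v54 1315360752 (by decide +kernel) tp158 ch174 rfl rfl

theorem tp160 : Good (Q 0) [v51, v8, v2, v50, v63, v30] :=
  split_of 1 4 v65 1312910633 (by decide +kernel) ch171 tp159 rfl rfl

theorem tp161 : Good (Q 0) [v51, v8, v2, v50, v63, v27] :=
  split_of 1 5 v30 1311272127 (by decide +kernel) ch170 tp160 rfl rfl

theorem tp162 : Good (Q 0) [v49, v8, v2, v50, v63, v27] :=
  split_of 0 2 v51 1321273347 (by decide +kernel) tp161 ch175 rfl rfl

theorem tp163 : Good (Q 0) [v49, v8, v2, v50, v61, v27] :=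
  split_of 2 4 v63 1312910633 (by decide +kernel) ch169 tp162 rfl rfl

theorem tp164 : Good (Q 0) [v49, v8, v2, v47, v61, v27] :=
  split_of 1 3 v50 1307275754 (by decide +kernel) ch168 tp163 rfl rfl

theorem tp165 : Good (Q 0) [v49, v8, v2, v47, v61, v25] :=
  split_of 2 5 v27 1305386625 (by decide +kernel) ch167 tp164 rfl rfl

theorem tp166 : Good (Q 0) [v16, v8, v2, v51, v63, v30] :=
  split_of 1 4 v65 1312910633 (by decide +kernel) ch180 ch181 rfl rfl

theorem tp167 : Good (Q 0) [v16, v8, v2, v51, v63, v27] :=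
  split_of 1 5 v30 1311272127 (by decide +kernel) ch179 tp166 rfl rfl

theorem tp168 : Good (Q 0) [v12, v8, v2, v51, v63, v27] :=
  split_of 0 2 v16 1329531520 (by decide +kernel) tp167 ch182 rfl rfl

theorem tp169 : Good (Q 0) [v12, v8, v2, v49, v63, v27] :=
  split_of 2 3 v51 1321273347 (by decide +kernel) ch178 tp168 rfl rfl

theorem tp170 : Good (Q 0) [v12, v8, v2, v49, v61, v27] :=
  split_of 2 4 v63 1312910633 (by decide +kernel) ch177 tp169 rfl rfl

theorem tp171 : Good (Q 0) [v12, v8, v2, v49, v61, v25] :=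
  split_of 2 5 v27 1305386625 (by decide +kernel) ch176 tp170 rfl rfl

theorem tp172 : Good (Q 0) [v24, v8, v2, v49, v61, v25] :=
  split_of 0 2 v12 1245967015 (by decide +kernel) tp171 ch183 rfl rfl

theorem tp173 : Good (Q 0) [v24, v8, v2, v47, v61, v25] :=
  split_of 0 3 v49 1202967926 (by decide +kernel) tp165 tp172 rfl rfl

theorem tp174 : Good (Q 0) [v24, v8, v2, v47, v60, v25] :=
  split_of 0 4 v61 1156653316 (by decide +kernel) tp157 tp173 rfl rfl

theorem tp175 : Good (Q 0) [v24, v8, v2, v47, v60, v26] :=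
  split_of 0 5 v25 1116736499 (by decide +kernel) ch158 tp174 rfl rfl

theorem tp176 : Good (Q 0) [v69, v8, v2, v68, v71, v70] :=
  split_of 2 3 v72 1339712096 (by decide +kernel) ch189 ch190 rfl rfl

theorem tp177 : Good (Q 0) [v69, v8, v2, v68, v32, v70] :=
  split_of 1 4 v71 1293212810 (by decide +kernel) ch188 tp176 rfl rfl

theorem tp178 : Good (Q 0) [v69, v8, v2, v68, v32, v6] :=
  split_of 1 5 v70 1288860967 (by decide +kernel) ch187 tp177 rfl rfl

theorem tp179 : Good (Q 0) [v67, v8, v2, v68, v32, v6] :=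
  split_of 0 1 v69 1292248265 (by decide +kernel) tp178 ch191 rfl rfl

theorem tp180 : Good (Q 0) [v67, v8, v2, v66, v32, v6] :=
  split_of 1 3 v68 1295857916 (by decide +kernel) ch186 tp179 rfl rfl

theorem tp181 : Good (Q 0) [v0, v8, v2, v66, v32, v6] :=
  split_of 0 3 v67 1241799870 (by decide +kernel) tp180 ch192 rfl rfl

theorem tp182 : Good (Q 0) [v0, v8, v2, v66, v32, v5] :=
  split_of 1 5 v6 1256264730 (by decide +kernel) ch185 tp181 rfl rfl

theorem tp183 : Good (Q 0) [v0, v8, v2, v66, v33, v5] :=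
  split_of 1 4 v32 1268403305 (by decide +kernel) ch184 tp182 rfl rfl

theorem tp184 : Good (Q 0) [v35, v8, v2, v67, v32, v0] :=
  split_of 2 5 v13 1309159440 (by decide +kernel) ch194 ch195 rfl rfl

theorem tp185 : Good (Q 0) [v34, v8, v2, v67, v32, v0] :=
  split_of 0 2 v35 1315710025 (by decide +kernel) tp184 ch196 rfl rfl

theorem tp186 : Good (Q 0) [v73, v8, v2, v72, v71, v69] :=
  split_of 1 2 v18 1333169107 (by decide +kernel) ch201 ch202 rfl rfl

theorem tp187 : Good (Q 0) [v73, v8, v2, v68, v71, v69] :=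
  split_of 2 3 v72 1339712096 (by decide +kernel) ch200 tp186 rfl rfl

theorem tp188 : Good (Q 0) [v35, v8, v2, v68, v71, v69] :=
  split_of 0 1 v73 1313261210 (by decide +kernel) tp187 ch203 rfl rfl

theorem tp189 : Good (Q 0) [v35, v8, v2, v68, v32, v69] :=
  split_of 1 4 v71 1293212810 (by decide +kernel) ch199 tp188 rfl rfl

theorem tp190 : Good (Q 0) [v35, v8, v2, v68, v32, v67] :=
  split_of 1 5 v69 1292248265 (by decide +kernel) ch198 tp189 rfl rfl

theorem tp191 : Good (Q 0) [v34, v8, v2, v68, v32, v67] :=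
  split_of 0 2 v35 1315710025 (by decide +kernel) tp190 ch204 rfl rfl

theorem tp192 : Good (Q 0) [v34, v8, v2, v66, v32, v67] :=
  split_of 1 3 v68 1295857916 (by decide +kernel) ch197 tp191 rfl rfl

theorem tp193 : Good (Q 0) [v34, v8, v2, v66, v32, v0] :=
  split_of 3 5 v67 1241799870 (by decide +kernel) tp185 tp192 rfl rfl

theorem tp194 : Good (Q 0) [v34, v8, v2, v66, v33, v0] :=
  split_of 1 4 v32 1268403305 (by decide +kernel) ch193 tp193 rfl rfl

theorem tp195 : Good (Q 0) [v74, v8, v2, v67, v34, v0] :=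
  split_of 2 5 v13 1309159440 (by decide +kernel) ch205 ch206 rfl rfl

theorem tp196 : Good (Q 0) [v76, v8, v2, v68, v77, v78] :=
  split_of 1 2 v18 1333169107 (by decide +kernel) ch212 ch213 rfl rfl

theorem tp197 : Good (Q 0) [v76, v8, v2, v68, v77, v69] :=
  split_of 2 5 v78 1338391739 (by decide +kernel) ch211 tp196 rfl rfl

theorem tp198 : Good (Q 0) [v76, v8, v2, v68, v77, v67] :=
  split_of 1 5 v69 1292248265 (by decide +kernel) ch210 tp197 rfl rfl

theorem tp199 : Good (Q 0) [v76, v8, v2, v68, v75, v67] :=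
  split_of 1 4 v77 1293333276 (by decide +kernel) ch209 tp198 rfl rfl

theorem tp200 : Good (Q 0) [v74, v8, v2, v68, v75, v67] :=
  split_of 0 2 v76 1321273347 (by decide +kernel) tp199 ch214 rfl rfl

theorem tp201 : Good (Q 0) [v74, v8, v2, v66, v75, v67] :=
  split_of 1 3 v68 1295857916 (by decide +kernel) ch208 tp200 rfl rfl

theorem tp202 : Good (Q 0) [v74, v8, v2, v66, v34, v67] :=
  split_of 3 4 v75 1244927842 (by decide +kernel) ch207 tp201 rfl rfl

theorem tp203 : Good (Q 0) [v74, v8, v2, v66, v34, v0] :=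
  split_of 3 5 v67 1241799870 (by decide +kernel) tp195 tp202 rfl rfl

theorem tp204 : Good (Q 0) [v16, v8, v2, v76, v35, v17] :=
  split_of 1 2 v18 1333169107 (by decide +kernel) ch219 ch220 rfl rfl

theorem tp205 : Good (Q 0) [v16, v8, v2, v76, v35, v13] :=
  split_of 1 5 v17 1311740689 (by decide +kernel) ch218 tp204 rfl rfl

theorem tp206 : Good (Q 0) [v12, v8, v2, v76, v35, v13] :=
  split_of 0 2 v16 1329531520 (by decide +kernel) tp205 ch221 rfl rfl

theorem tp207 : Good (Q 0) [v12, v8, v2, v74, v35, v13] :=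
  split_of 2 3 v76 1321273347 (by decide +kernel) ch217 tp206 rfl rfl

theorem tp208 : Good (Q 0) [v12, v8, v2, v74, v34, v13] :=
  split_of 2 4 v35 1315710025 (by decide +kernel) ch216 tp207 rfl rfl

theorem tp209 : Good (Q 0) [v12, v8, v2, v74, v34, v0] :=
  split_of 2 5 v13 1309159440 (by decide +kernel) ch215 tp208 rfl rfl

theorem tp210 : Good (Q 0) [v24, v8, v2, v74, v34, v0] :=
  split_of 0 2 v12 1245967015 (by decide +kernel) tp209 ch222 rfl rfl

theorem tp211 : Good (Q 0) [v24, v8, v2, v66, v34, v0] :=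
  split_of 0 3 v74 1202967926 (by decide +kernel) tp203 tp210 rfl rfl

theorem tp212 : Good (Q 0) [v24, v8, v2, v66, v33, v0] :=
  split_of 0 4 v34 1184875434 (by decide +kernel) tp194 tp211 rfl rfl

theorem tp213 : Good (Q 0) [v24, v8, v2, v66, v33, v5] :=
  split_of 0 5 v0 1156653316 (by decide +kernel) tp183 tp212 rfl rfl

theorem tp214 : Good (Q 0) [v27, v8, v2, v81, v42, v82] :=
  split_of 0 1 v30 1311272127 (by decide +kernel) ch228 ch229 rfl rfl

theorem tp215 : Good (Q 0) [v27, v8, v2, v81, v40, v82] :=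
  split_of 1 4 v42 1293212810 (by decide +kernel) ch227 tp214 rfl rfl

theorem tp216 : Good (Q 0) [v27, v8, v2, v81, v40, v79] :=
  split_of 1 5 v82 1284967838 (by decide +kernel) ch226 tp215 rfl rfl

theorem tp217 : Good (Q 0) [v27, v8, v2, v80, v40, v79] :=
  split_of 1 3 v81 1295857916 (by decide +kernel) ch225 tp216 rfl rfl

theorem tp218 : Good (Q 0) [v25, v8, v2, v80, v40, v79] :=
  split_of 0 2 v27 1305386625 (by decide +kernel) tp217 ch230 rfl rfl

theorem tp219 : Good (Q 0) [v25, v8, v2, v80, v38, v79] :=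
  split_of 1 4 v40 1268403305 (by decide +kernel) ch224 tp218 rfl rfl

theorem tp220 : Good (Q 0) [v25, v8, v2, v80, v38, v26] :=
  split_of 1 5 v79 1222692218 (by decide +kernel) ch223 tp219 rfl rfl

theorem tp221 : Good (Q 0) [v43, v8, v2, v81, v42, v30] :=
  split_of 1 2 v18 1333169107 (by decide +kernel) ch236 ch237 rfl rfl

theorem tp222 : Good (Q 0) [v41, v8, v2, v81, v42, v30] :=
  split_of 0 1 v43 1313261210 (by decide +kernel) tp221 ch238 rfl rfl

theorem tp223 : Good (Q 0) [v41, v8, v2, v81, v42, v27] :=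
  split_of 1 5 v30 1311272127 (by decide +kernel) ch235 tp222 rfl rfl

theorem tp224 : Good (Q 0) [v41, v8, v2, v81, v40, v27] :=
  split_of 1 4 v42 1293212810 (by decide +kernel) ch234 tp223 rfl rfl

theorem tp225 : Good (Q 0) [v39, v8, v2, v81, v40, v27] :=
  split_of 0 2 v41 1315710025 (by decide +kernel) tp224 ch239 rfl rfl

theorem tp226 : Good (Q 0) [v39, v8, v2, v80, v40, v27] :=
  split_of 1 3 v81 1295857916 (by decide +kernel) ch233 tp225 rfl rfl

theorem tp227 : Good (Q 0) [v39, v8, v2, v80, v40, v25] :=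
  split_of 2 5 v27 1305386625 (by decide +kernel) ch232 tp226 rfl rfl

theorem tp228 : Good (Q 0) [v39, v8, v2, v80, v38, v25] :=
  split_of 1 4 v40 1268403305 (by decide +kernel) ch231 tp227 rfl rfl

theorem tp229 : Good (Q 0) [v85, v8, v2, v81, v87, v30] :=
  split_of 1 2 v18 1333169107 (by decide +kernel) ch246 ch247 rfl rfl

theorem tp230 : Good (Q 0) [v85, v8, v2, v81, v86, v30] :=
  split_of 2 4 v87 1338743152 (by decide +kernel) ch245 tp229 rfl rfl

theorem tp231 : Good (Q 0) [v85, v8, v2, v81, v86, v27] :=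
  split_of 1 5 v30 1311272127 (by decide +kernel) ch244 tp230 rfl rfl

theorem tp232 : Good (Q 0) [v85, v8, v2, v81, v84, v27] :=
  split_of 1 4 v86 1293333276 (by decide +kernel) ch243 tp231 rfl rfl

theorem tp233 : Good (Q 0) [v83, v8, v2, v81, v84, v27] :=
  split_of 0 2 v85 1321273347 (by decide +kernel) tp232 ch248 rfl rfl

theorem tp234 : Good (Q 0) [v83, v8, v2, v80, v84, v27] :=
  split_of 1 3 v81 1295857916 (by decide +kernel) ch242 tp233 rfl rfl

theorem tp235 : Good (Q 0) [v83, v8, v2, v80, v39, v27] :=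
  split_of 3 4 v84 1244927842 (by decide +kernel) ch241 tp234 rfl rfl

theorem tp236 : Good (Q 0) [v83, v8, v2, v80, v39, v25] :=
  split_of 2 5 v27 1305386625 (by decide +kernel) ch240 tp235 rfl rfl

theorem tp237 : Good (Q 0) [v16, v8, v2, v85, v41, v30] :=
  split_of 1 2 v18 1333169107 (by decide +kernel) ch253 ch254 rfl rfl

theorem tp238 : Good (Q 0) [v16, v8, v2, v85, v41, v27] :=
  split_of 1 5 v30 1311272127 (by decide +kernel) ch252 tp237 rfl rfl

theorem tp239 : Good (Q 0) [v12, v8, v2, v85, v41, v27] :=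
  split_of 0 2 v16 1329531520 (by decide +kernel) tp238 ch255 rfl rfl

theorem tp240 : Good (Q 0) [v12, v8, v2, v83, v41, v27] :=
  split_of 2 3 v85 1321273347 (by decide +kernel) ch251 tp239 rfl rfl

theorem tp241 : Good (Q 0) [v12, v8, v2, v83, v39, v27] :=
  split_of 2 4 v41 1315710025 (by decide +kernel) ch250 tp240 rfl rfl

theorem tp242 : Good (Q 0) [v12, v8, v2, v83, v39, v25] :=
  split_of 2 5 v27 1305386625 (by decide +kernel) ch249 tp241 rfl rfl

theorem tp243 : Good (Q 0) [v24, v8, v2, v83, v39, v25] :=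
  split_of 0 2 v12 1245967015 (by decide +kernel) tp242 ch256 rfl rfl

theorem tp244 : Good (Q 0) [v24, v8, v2, v80, v39, v25] :=
  split_of 0 3 v83 1202967926 (by decide +kernel) tp236 tp243 rfl rfl

theorem tp245 : Good (Q 0) [v24, v8, v2, v80, v38, v25] :=
  split_of 0 4 v39 1184875434 (by decide +kernel) tp228 tp244 rfl rfl

theorem tp246 : Good (Q 0) [v24, v8, v2, v80, v38, v26] :=
  split_of 0 5 v25 1116736499 (by decide +kernel) tp220 tp245 rfl rfl

theorem tp247 : Good (Q 0) [v69, v8, v2, v68, v88, v70] :=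
  split_of 2 3 v72 1339712096 (by decide +kernel) ch262 ch263 rfl rfl

theorem tp248 : Good (Q 0) [v69, v8, v2, v68, v55, v70] :=
  split_of 1 4 v88 1293212810 (by decide +kernel) ch261 tp247 rfl rfl

theorem tp249 : Good (Q 0) [v69, v8, v2, v68, v55, v6] :=
  split_of 1 5 v70 1288860967 (by decide +kernel) ch260 tp248 rfl rfl

theorem tp250 : Good (Q 0) [v67, v8, v2, v68, v55, v6] :=
  split_of 0 1 v69 1292248265 (by decide +kernel) tp249 ch264 rfl rfl

theorem tp251 : Good (Q 0) [v67, v8, v2, v66, v55, v6] :=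
  split_of 1 3 v68 1295857916 (by decide +kernel) ch259 tp250 rfl rfl

theorem tp252 : Good (Q 0) [v0, v8, v2, v66, v55, v6] :=
  split_of 0 3 v67 1241799870 (by decide +kernel) tp251 ch265 rfl rfl

theorem tp253 : Good (Q 0) [v0, v8, v2, v66, v55, v5] :=
  split_of 1 5 v6 1256264730 (by decide +kernel) ch258 tp252 rfl rfl

theorem tp254 : Good (Q 0) [v0, v8, v2, v66, v56, v5] :=
  split_of 1 4 v55 1268403305 (by decide +kernel) ch257 tp253 rfl rfl

theorem tp255 : Good (Q 0) [v58, v8, v2, v69, v55, v13] :=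
  split_of 1 4 v88 1293212810 (by decide +kernel) ch269 ch270 rfl rfl

theorem tp256 : Good (Q 0) [v58, v8, v2, v67, v55, v13] :=
  split_of 1 3 v69 1292248265 (by decide +kernel) ch268 tp255 rfl rfl

theorem tp257 : Good (Q 0) [v58, v8, v2, v67, v55, v0] :=
  split_of 2 5 v13 1309159440 (by decide +kernel) ch267 tp256 rfl rfl

theorem tp258 : Good (Q 0) [v57, v8, v2, v67, v55, v0] :=
  split_of 0 2 v58 1312910633 (by decide +kernel) tp257 ch271 rfl rfl

theorem tp259 : Good (Q 0) [v90, v8, v2, v68, v55, v69] :=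
  split_of 2 4 v91 1332942339 (by decide +kernel) ch274 ch275 rfl rfl

theorem tp260 : Good (Q 0) [v90, v8, v2, v68, v55, v67] :=
  split_of 1 5 v69 1292248265 (by decide +kernel) ch273 tp259 rfl rfl

theorem tp261 : Good (Q 0) [v89, v8, v2, v68, v55, v67] :=
  split_of 0 1 v90 1292971808 (by decide +kernel) tp260 ch276 rfl rfl

theorem tp262 : Good (Q 0) [v89, v8, v2, v66, v55, v67] :=
  split_of 1 3 v68 1295857916 (by decide +kernel) ch272 tp261 rfl rfl

theorem tp263 : Good (Q 0) [v57, v8, v2, v89, v55, v67] :=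
  split_of 0 2 v58 1312910633 (by decide +kernel) ch277 ch278 rfl rfl

theorem tp264 : Good (Q 0) [v57, v8, v2, v66, v55, v67] :=
  split_of 0 3 v89 1241799870 (by decide +kernel) tp262 tp263 rfl rfl

theorem tp265 : Good (Q 0) [v57, v8, v2, v66, v55, v0] :=
  split_of 3 5 v67 1241799870 (by decide +kernel) tp258 tp264 rfl rfl

theorem tp266 : Good (Q 0) [v57, v8, v2, v66, v56, v0] :=
  split_of 1 4 v55 1268403305 (by decide +kernel) ch266 tp265 rfl rfl

theorem tp267 : Good (Q 0) [v74, v8, v2, v67, v58, v0] :=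
  split_of 2 5 v13 1309159440 (by decide +kernel) ch280 ch281 rfl rfl

theorem tp268 : Good (Q 0) [v74, v8, v2, v67, v57, v0] :=
  split_of 2 4 v58 1312910633 (by decide +kernel) ch279 tp267 rfl rfl

theorem tp269 : Good (Q 0) [v76, v8, v2, v68, v90, v78] :=
  split_of 1 2 v18 1333169107 (by decide +kernel) ch287 ch288 rfl rfl

theorem tp270 : Good (Q 0) [v76, v8, v2, v68, v90, v69] :=
  split_of 2 5 v78 1338391739 (by decide +kernel) ch286 tp269 rfl rfl

theorem tp271 : Good (Q 0) [v76, v8, v2, v68, v90, v67] :=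
  split_of 1 5 v69 1292248265 (by decide +kernel) ch285 tp270 rfl rfl

theorem tp272 : Good (Q 0) [v76, v8, v2, v68, v89, v67] :=
  split_of 1 4 v90 1292971808 (by decide +kernel) ch284 tp271 rfl rfl

theorem tp273 : Good (Q 0) [v74, v8, v2, v68, v89, v67] :=
  split_of 0 2 v76 1321273347 (by decide +kernel) tp272 ch289 rfl rfl

theorem tp274 : Good (Q 0) [v74, v8, v2, v66, v89, v67] :=
  split_of 1 3 v68 1295857916 (by decide +kernel) ch283 tp273 rfl rfl

theorem tp275 : Good (Q 0) [v74, v8, v2, v66, v57, v67] :=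
  split_of 3 4 v89 1241799870 (by decide +kernel) ch282 tp274 rfl rfl

theorem tp276 : Good (Q 0) [v74, v8, v2, v66, v57, v0] :=
  split_of 3 5 v67 1241799870 (by decide +kernel) tp268 tp275 rfl rfl

theorem tp277 : Good (Q 0) [v16, v18, v2, v76, v92, v17] :=
  split_of 2 5 v20 1342484791 (by decide +kernel) ch295 ch296 rfl rfl

theorem tp278 : Good (Q 0) [v16, v18, v2, v76, v58, v17] :=
  split_of 2 4 v92 1343518117 (by decide +kernel) ch294 tp277 rfl rfl

theorem tp279 : Good (Q 0) [v16, v8, v2, v76, v58, v17] :=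
  split_of 1 2 v18 1333169107 (by decide +kernel) tp278 ch297 rfl rfl

theorem tp280 : Good (Q 0) [v16, v8, v2, v76, v58, v13] :=
  split_of 1 5 v17 1311740689 (by decide +kernel) ch293 tp279 rfl rfl

theorem tp281 : Good (Q 0) [v12, v8, v2, v76, v58, v13] :=
  split_of 0 2 v16 1329531520 (by decide +kernel) tp280 ch298 rfl rfl

theorem tp282 : Good (Q 0) [v12, v8, v2, v74, v58, v13] :=
  split_of 2 3 v76 1321273347 (by decide +kernel) ch292 tp281 rfl rfl

theorem tp283 : Good (Q 0) [v12, v8, v2, v74, v58, v0] :=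
  split_of 2 5 v13 1309159440 (by decide +kernel) ch291 tp282 rfl rfl

theorem tp284 : Good (Q 0) [v12, v8, v2, v74, v57, v0] :=
  split_of 2 4 v58 1312910633 (by decide +kernel) ch290 tp283 rfl rfl

theorem tp285 : Good (Q 0) [v24, v8, v2, v74, v57, v0] :=
  split_of 0 2 v12 1245967015 (by decide +kernel) tp284 ch299 rfl rfl

theorem tp286 : Good (Q 0) [v24, v8, v2, v66, v57, v0] :=
  split_of 0 3 v74 1202967926 (by decide +kernel) tp276 tp285 rfl rfl

theorem tp287 : Good (Q 0) [v24, v8, v2, v66, v56, v0] :=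
  split_of 0 4 v57 1156653316 (by decide +kernel) tp266 tp286 rfl rfl

theorem tp288 : Good (Q 0) [v24, v8, v2, v66, v56, v5] :=
  split_of 0 5 v0 1156653316 (by decide +kernel) tp254 tp287 rfl rfl

theorem tp289 : Good (Q 0) [v27, v8, v2, v81, v64, v82] :=
  split_of 0 1 v30 1311272127 (by decide +kernel) ch305 ch306 rfl rfl

theorem tp290 : Good (Q 0) [v27, v8, v2, v81, v62, v82] :=
  split_of 1 4 v64 1293212810 (by decide +kernel) ch304 tp289 rfl rfl

theorem tp291 : Good (Q 0) [v27, v8, v2, v81, v62, v79] :=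
  split_of 1 5 v82 1284967838 (by decide +kernel) ch303 tp290 rfl rfl

theorem tp292 : Good (Q 0) [v27, v8, v2, v80, v62, v79] :=
  split_of 1 3 v81 1295857916 (by decide +kernel) ch302 tp291 rfl rfl

theorem tp293 : Good (Q 0) [v25, v8, v2, v80, v62, v79] :=
  split_of 0 2 v27 1305386625 (by decide +kernel) tp292 ch307 rfl rfl

theorem tp294 : Good (Q 0) [v25, v8, v2, v80, v60, v79] :=
  split_of 1 4 v62 1268403305 (by decide +kernel) ch301 tp293 rfl rfl

theorem tp295 : Good (Q 0) [v25, v8, v2, v80, v60, v26] :=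
  split_of 1 5 v79 1222692218 (by decide +kernel) ch300 tp294 rfl rfl

theorem tp296 : Good (Q 0) [v65, v8, v2, v81, v64, v30] :=
  split_of 1 2 v18 1333169107 (by decide +kernel) ch313 ch314 rfl rfl

theorem tp297 : Good (Q 0) [v63, v8, v2, v81, v64, v30] :=
  split_of 0 1 v65 1312910633 (by decide +kernel) tp296 ch315 rfl rfl

theorem tp298 : Good (Q 0) [v63, v8, v2, v81, v64, v27] :=
  split_of 1 5 v30 1311272127 (by decide +kernel) ch312 tp297 rfl rfl

theorem tp299 : Good (Q 0) [v63, v8, v2, v81, v62, v27] :=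
  split_of 1 4 v64 1293212810 (by decide +kernel) ch311 tp298 rfl rfl

theorem tp300 : Good (Q 0) [v63, v8, v2, v80, v62, v27] :=
  split_of 1 3 v81 1295857916 (by decide +kernel) ch310 tp299 rfl rfl

theorem tp301 : Good (Q 0) [v61, v8, v2, v80, v62, v27] :=
  split_of 0 2 v63 1312910633 (by decide +kernel) tp300 ch316 rfl rfl

theorem tp302 : Good (Q 0) [v61, v8, v2, v80, v62, v25] :=
  split_of 2 5 v27 1305386625 (by decide +kernel) ch309 tp301 rfl rfl

theorem tp303 : Good (Q 0) [v61, v8, v2, v80, v60, v25] :=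
  split_of 1 4 v62 1268403305 (by decide +kernel) ch308 tp302 rfl rfl

theorem tp304 : Good (Q 0) [v85, v8, v2, v81, v95, v30] :=
  split_of 1 2 v18 1333169107 (by decide +kernel) ch323 ch324 rfl rfl

theorem tp305 : Good (Q 0) [v85, v8, v2, v81, v94, v30] :=
  split_of 2 4 v95 1338700992 (by decide +kernel) ch322 tp304 rfl rfl

theorem tp306 : Good (Q 0) [v85, v8, v2, v81, v94, v27] :=
  split_of 1 5 v30 1311272127 (by decide +kernel) ch321 tp305 rfl rfl

theorem tp307 : Good (Q 0) [v85, v8, v2, v81, v93, v27] :=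
  split_of 1 4 v94 1292971808 (by decide +kernel) ch320 tp306 rfl rfl

theorem tp308 : Good (Q 0) [v83, v8, v2, v81, v93, v27] :=
  split_of 0 2 v85 1321273347 (by decide +kernel) tp307 ch325 rfl rfl

theorem tp309 : Good (Q 0) [v83, v8, v2, v80, v93, v27] :=
  split_of 1 3 v81 1295857916 (by decide +kernel) ch319 tp308 rfl rfl

theorem tp310 : Good (Q 0) [v83, v8, v2, v80, v61, v27] :=
  split_of 3 4 v93 1241799870 (by decide +kernel) ch318 tp309 rfl rfl

theorem tp311 : Good (Q 0) [v83, v8, v2, v80, v61, v25] :=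
  split_of 2 5 v27 1305386625 (by decide +kernel) ch317 tp310 rfl rfl

theorem tp312 : Good (Q 0) [v16, v8, v2, v85, v65, v30] :=
  split_of 1 2 v18 1333169107 (by decide +kernel) ch331 ch332 rfl rfl

theorem tp313 : Good (Q 0) [v16, v8, v2, v85, v63, v30] :=
  split_of 1 4 v65 1312910633 (by decide +kernel) ch330 tp312 rfl rfl

theorem tp314 : Good (Q 0) [v16, v8, v2, v85, v63, v27] :=
  split_of 1 5 v30 1311272127 (by decide +kernel) ch329 tp313 rfl rfl

theorem tp315 : Good (Q 0) [v12, v8, v2, v85, v63, v27] :=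
  split_of 0 2 v16 1329531520 (by decide +kernel) tp314 ch333 rfl rfl

theorem tp316 : Good (Q 0) [v12, v8, v2, v83, v63, v27] :=
  split_of 2 3 v85 1321273347 (by decide +kernel) ch328 tp315 rfl rfl

theorem tp317 : Good (Q 0) [v12, v8, v2, v83, v61, v27] :=
  split_of 2 4 v63 1312910633 (by decide +kernel) ch327 tp316 rfl rfl

theorem tp318 : Good (Q 0) [v12, v8, v2, v83, v61, v25] :=
  split_of 2 5 v27 1305386625 (by decide +kernel) ch326 tp317 rfl rfl

theorem tp319 : Good (Q 0) [v24, v8, v2, v83, v61, v25] :=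
  split_of 0 2 v12 1245967015 (by decide +kernel) tp318 ch334 rfl rfl

theorem tp320 : Good (Q 0) [v24, v8, v2, v80, v61, v25] :=
  split_of 0 3 v83 1202967926 (by decide +kernel) tp311 tp319 rfl rfl

theorem tp321 : Good (Q 0) [v24, v8, v2, v80, v60, v25] :=
  split_of 0 4 v61 1156653316 (by decide +kernel) tp303 tp320 rfl rfl

theorem tp322 : Good (Q 0) [v24, v8, v2, v80, v60, v26] :=
  split_of 0 5 v25 1116736499 (by decide +kernel) tp295 tp321 rfl rfl

end Pool.Agent.U316.Th
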